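import Mathlib

/-!
PROJECT H (MP_cf17b5): final statements. P5 proves `F1` and `F2` literally.
-/

namespace Pool.Agent.Helper41.MR

/-- `c` is the coefficient array of an alternating trilinear form on `ℤ^n`. -/
def IsAlt {n : ℕ} (c : Fin n → Fin n → Fin n → ℤ) : Prop :=
  ∀ i j k, c j i k = - c i j k ∧ c i k j = - c i j k

/-- The value `∑ c i j k x_i y_j z_k` of the trilinear form with coefficients `c`. -/
def tri {n : ℕ} (c : Fin n → Fin n → Fin n → ℤ) (x y z : Fin n → ℤ) : ℤ :=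
  ∑ i, ∑ j, ∑ k, c i j k * (x i * y j * z k)

/-- `ℤ^n` is the direct sum of two subgroups on each of which the form vanishes. -/
def Splits {n : ℕ} (c : Fin n → Fin n → Fin n → ℤ) : Prop :=
  ∃ A B : Submodule ℤ (Fin n → ℤ), IsCompl A B ∧
    (∀ x ∈ A, ∀ y ∈ A, ∀ z ∈ A, tri c x y z = 0) ∧
    (∀ x ∈ B, ∀ y ∈ B, ∀ z ∈ B, tri c x y z = 0)

/-- Every r.e. set is `{a : C + a D splits}` for one pencil of integral alternating forms. -/
def F1 : Prop := ∀ p : ℕ → Prop, REPred p →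
  ∃ (n : ℕ) (C D : Fin n → Fin n → Fin n → ℤ), IsAlt C ∧ IsAlt D ∧
    ∀ a : ℕ, p a ↔ Splits (fun i j k => C i j k + (a : ℤ) * D i j k)

/-- For some fixed `n` no algorithm decides splitting of integral alternating 3-forms on `ℤ^n`. -/
def F2 : Prop := ∃ n : ℕ,
  ¬ ∃ f : (Fin n → Fin n → Fin n → ℤ) → Bool, Computable f ∧
    ∀ c, IsAlt c → (f c = true ↔ Splits c)

/-- For some fixed `n` the splitting forms on `ℤ^n` are complete for the r.e. sets under many-one
reductions. (From `F1` for a universal r.e. predicate.) -/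
def F3 : Prop := ∃ n : ℕ, ∀ p : ℕ → Prop, REPred p →
  ∃ g : ℕ → (Fin n → Fin n → Fin n → ℤ), Computable g ∧ (∀ a, IsAlt (g a)) ∧
    ∀ a, p a ↔ Splits (g a)

end Pool.Agent.Helper41.MR
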