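import Pool.Agent.Helper41.MR.Stmt
import Pool.Agent.Helper50.MR.Undec

namespace Pool.Agent.Helper41.MR

/-- `F4`: the splitting alternating forms on `ℤ^n` are r.e. -/
def F4 : Prop := ∀ n : ℕ, REPred (fun c : Fin n → Fin n → Fin n → ℤ => IsAlt c ∧ Splits c)

/-- The final theorem. -/
def Final : Prop := ∃ n : ℕ,
  REPred (fun c : Fin n → Fin n → Fin n → ℤ => IsAlt c ∧ Splits c) ∧
  (∀ p : ℕ → Prop, REPred p →
    ∃ g : ℕ → (Fin n → Fin n → Fin n → ℤ), Computable g ∧ (∀ a, IsAlt (g a)) ∧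
      ∀ a, p a ↔ Splits (g a)) ∧
  ¬ ∃ f : (Fin n → Fin n → Fin n → ℤ) → Bool, Computable f ∧
    ∀ c, IsAlt c → (f c = true ↔ Splits c)

theorem final_of (h3 : F3) (h4 : F4) : Final := by
  obtain ⟨n, hn⟩ := h3
  refine ⟨n, h4 n, hn, ?_⟩
  rintro ⟨f, hf, hs⟩
  obtain ⟨p, hp, hc⟩ := Helper50.MR.exists_re_not_computable
  obtain ⟨g, hg, ha, hpg⟩ := hn p hp
  refine hc (ComputablePred.computable_iff.2 ⟨fun a => f (g a), hf.comp hg, ?_⟩)
  funext a
  have := hs (g a) (ha a)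
  exact propext ((hpg a).trans this.symm)

end Pool.Agent.Helper41.MR
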